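import Pool.Agent.H608R4.KM.Stm

/-!
# First and second order conditions at a local minimum
-/

set_option autoImplicit false

open Finset Filter Topology

namespace Pool.Agent.TH200.KM

open Pool.Agent.H608R4.KM

theorem lim_sin (c : ℝ) :
    Tendsto (fun e : ℝ => e⁻¹ * Real.sin (e * c)) (𝓝[≠] 0) (𝓝 c) := by
  have h1 : HasDerivAt (fun e : ℝ => Real.sin (e * c)) (Real.cos (0 * c) * (1 * c)) 0 :=
    ((hasDerivAt_id (0 : ℝ)).mul_const c).sin
  have h2 := hasDerivAt_iff_tendsto_slope_zero.1 h1
  simpa using h2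

theorem lim_cos (d : ℝ) :
    Tendsto (fun e : ℝ => e⁻¹ ^ 2 * (2 * (1 - Real.cos (e * d)))) (𝓝[≠] 0) (𝓝 (d ^ 2)) := by
  have h1 := (lim_sin (d / 2)).pow 2
  have h2 := h1.const_mul 4
  have e1 : (4 : ℝ) * (d / 2) ^ 2 = d ^ 2 := by ring
  rw [e1] at h2
  refine h2.congr fun e => ?_
  have h3 : Real.cos (e * d) = 1 - 2 * Real.sin (e * (d / 2)) ^ 2 := by
    have := Real.cos_two_mul (e * (d / 2))
    rw [show 2 * (e * (d / 2)) = e * d by ring] at this
    rw [this]
    have := Real.sin_sq_add_cos_sq (e * (d / 2))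
    linarith
  rw [h3]
  ring

theorem t_LM : S_LM := by
  intro n a θ ha hmin
  have hline : ∀ f : Fin n → ℝ, ∀ᶠ e : ℝ in 𝓝 0,
      ∑ i, ∑ j, a i j * (1 - Real.cos (θ i - θ j)) ≤
        ∑ i, ∑ j, a i j * (1 - Real.cos ((θ i + e * f i) - (θ j + e * f j))) := by
    intro f
    have hL : Tendsto (fun (e : ℝ) (i : Fin n) => θ i + e * f i) (𝓝 0) (𝓝 θ) := by
      have hc : Continuous (fun (e : ℝ) (i : Fin n) => θ i + e * f i) := by fun_prop
      have := hc.tendsto 0
      simpa using this
    exact hL.eventually hmin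
  constructor
  · intro i
    set f : Fin n → ℝ := Pi.single i 1 with hf
    have hmin0 : IsLocalMin (fun e : ℝ => ∑ k, ∑ j, a k j *
        (1 - Real.cos ((θ k + e * f k) - (θ j + e * f j)))) 0 := by
      have h := hline f
      unfold IsLocalMin IsMinFilter
      simpa using h
    have hder : HasDerivAt (fun e : ℝ => ∑ k, ∑ j, a k j *
        (1 - Real.cos ((θ k + e * f k) - (θ j + e * f j))))
        (∑ k, ∑ j, a k j * (Real.sin (θ k - θ j) * (f k - f j))) 0 := by
      apply HasDerivAt.fun_sum
      intro k _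
      apply HasDerivAt.fun_sum
      intro j _
      apply HasDerivAt.const_mul
      have h1 : HasDerivAt (fun e : ℝ => (θ k + e * f k) - (θ j + e * f j)) (f k - f j) 0 := by
        have h2 : HasDerivAt (fun e : ℝ => θ k + e * f k) (1 * f k) 0 :=
          ((hasDerivAt_id (0 : ℝ)).mul_const (f k)).const_add (θ k)
        have h3 : HasDerivAt (fun e : ℝ => θ j + e * f j) (1 * f j) 0 :=
          ((hasDerivAt_id (0 : ℝ)).mul_const (f j)).const_add (θ j)
        have h4 := h2.sub h3
        rw [one_mul, one_mul] at h4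
        exact h4
      have h5 := (h1.cos).const_sub 1
      simp only [zero_mul, add_zero, neg_mul, neg_neg] at h5
      exact h5
    have h0 := hmin0.hasDerivAt_eq_zero hder
    -- symmetry
    have h1 : ∑ k, ∑ j, a k j * (Real.sin (θ k - θ j) * (f k - f j)) =
        2 * ∑ k, ∑ j, a k j * Real.sin (θ k - θ j) * f k := by
      have e1 : ∑ k, ∑ j, a k j * (Real.sin (θ k - θ j) * (f k - f j)) =
          ∑ k, ∑ j, a k j * Real.sin (θ k - θ j) * f k -
            ∑ k, ∑ j, a k j * Real.sin (θ k - θ j) * f j := by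
        rw [← Finset.sum_sub_distrib]
        refine Finset.sum_congr rfl fun k _ => ?_
        rw [← Finset.sum_sub_distrib]
        refine Finset.sum_congr rfl fun j _ => ?_
        ring
      have e2 : ∑ k, ∑ j, a k j * Real.sin (θ k - θ j) * f j =
          - ∑ k, ∑ j, a k j * Real.sin (θ k - θ j) * f k := by
        rw [Finset.sum_comm, ← Finset.sum_neg_distrib]
        refine Finset.sum_congr rfl fun k _ => ?_
        rw [← Finset.sum_neg_distrib]
        refine Finset.sum_congr rfl fun j _ => ?_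
        rw [ha j k, show θ j - θ k = -(θ k - θ j) by ring, Real.sin_neg]
        ring
      rw [e1, e2]
      ring
    have h2 : ∑ k, ∑ j, a k j * Real.sin (θ k - θ j) * f k =
        ∑ j, a i j * Real.sin (θ i - θ j) := by
      rw [Finset.sum_eq_single i]
      · refine Finset.sum_congr rfl fun j _ => ?_
        rw [hf, Pi.single_eq_same, mul_one]
      · intro k _ hk
        refine Finset.sum_eq_zero fun j _ => ?_
        rw [hf, Pi.single_eq_of_ne hk, mul_zero]
      · intro h
        exact absurd (Finset.mem_univ i) h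
    rw [h1, h2] at h0
    have h3 : ∑ j, a i j * Real.sin (θ j - θ i) = - ∑ j, a i j * Real.sin (θ i - θ j) := by
      rw [← Finset.sum_neg_distrib]
      refine Finset.sum_congr rfl fun j _ => ?_
      rw [show θ j - θ i = -(θ i - θ j) by ring, Real.sin_neg]
      ring
    rw [h3]
    linarith
  · intro f
    have h1 := hline f
    have h2 : ∀ᶠ e : ℝ in 𝓝 0, ∑ i, ∑ j, a i j * (1 - Real.cos (θ i - θ j)) ≤
        ∑ i, ∑ j, a i j * (1 - Real.cos ((θ i + (-e) * f i) - (θ j + (-e) * f j))) := by
      have hn : Tendsto (fun e : ℝ => -e) (𝓝 0) (𝓝 0) := by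
        have := (continuous_neg (G := ℝ)).tendsto 0
        simpa using this
      exact hn.eventually h1
    have h3 : ∀ᶠ e : ℝ in 𝓝[≠] 0, 0 ≤ ∑ i, ∑ j, a i j * Real.cos (θ i - θ j) *
        (e⁻¹ ^ 2 * (2 * (1 - Real.cos (e * (f i - f j))))) := by
      refine (h1.and h2).filter_mono nhdsWithin_le_nhds |>.mono ?_
      rintro e ⟨h4, h5⟩
      have h6 : 0 ≤ ∑ i, ∑ j, a i j * Real.cos (θ i - θ j) *
          (2 * (1 - Real.cos (e * (f i - f j)))) := by
        have e1 : ∑ i, ∑ j, a i j * Real.cos (θ i - θ j) *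
            (2 * (1 - Real.cos (e * (f i - f j)))) =
            (∑ i, ∑ j, a i j * (1 - Real.cos ((θ i + e * f i) - (θ j + e * f j))) -
              ∑ i, ∑ j, a i j * (1 - Real.cos (θ i - θ j))) +
            (∑ i, ∑ j, a i j * (1 - Real.cos ((θ i + (-e) * f i) - (θ j + (-e) * f j))) -
              ∑ i, ∑ j, a i j * (1 - Real.cos (θ i - θ j))) := by
          simp only [← Finset.sum_sub_distrib, ← Finset.sum_add_distrib]
          refine Finset.sum_congr rfl fun i _ => Finset.sum_congr rfl fun j _ => ?_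
          rw [show (θ i + e * f i) - (θ j + e * f j) = (θ i - θ j) + e * (f i - f j) by ring,
            show (θ i + (-e) * f i) - (θ j + (-e) * f j) = (θ i - θ j) - e * (f i - f j) by ring,
            Real.cos_add, Real.cos_sub (θ i - θ j) (e * (f i - f j))]
          ring
        rw [e1]
        linarith
      have e2 : ∑ i, ∑ j, a i j * Real.cos (θ i - θ j) *
          (e⁻¹ ^ 2 * (2 * (1 - Real.cos (e * (f i - f j))))) =
          e⁻¹ ^ 2 * ∑ i, ∑ j, a i j * Real.cos (θ i - θ j) *
          (2 * (1 - Real.cos (e * (f i - f j)))) := by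
        rw [Finset.mul_sum]
        refine Finset.sum_congr rfl fun i _ => ?_
        rw [Finset.mul_sum]
        refine Finset.sum_congr rfl fun j _ => ?_
        ring
      rw [e2]
      exact mul_nonneg (sq_nonneg _) h6
    have h4 : Tendsto (fun e : ℝ => ∑ i, ∑ j, a i j * Real.cos (θ i - θ j) *
        (e⁻¹ ^ 2 * (2 * (1 - Real.cos (e * (f i - f j)))))) (𝓝[≠] 0)
        (𝓝 (∑ i, ∑ j, a i j * Real.cos (θ i - θ j) * (f i - f j) ^ 2)) := by
      apply tendsto_finsetSum
      intro i _
      apply tendsto_finsetSum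
      intro j _
      exact (lim_cos (f i - f j)).const_mul _
    exact ge_of_tendsto h4 h3

end Pool.Agent.TH200.KM
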